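import Pool.Agent.helper36.PP.SpecB

/-!
# EV1 of project pp: the loss of cutoff at a critical value
-/

set_option autoImplicit false

open Complex Metric Set Filter Topology MeasureTheory MPS

noncomputable section

namespace PPS

lemma EV1_mono {k : ℕ} [NeZero k] {f : Polynomial ℂ} {b : ZMod k → ℂ} {ψ : ℂ → ℂ} {δ : ℝ} {A : ℕ → ℝ}
    {G : ℕ → ℂ → ℂ} {Q : ℕ} (H : Sys1 f b ψ δ A G Q) : ∀ q ≤ Q, A q ≤ A Q := by
  intro q hq
  have key : ∀ m, q ≤ m → m ≤ Q → A q ≤ A m := by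
    intro m hm
    induction m, hm using Nat.le_induction with
    | base => intro _; exact le_rfl
    | succ m hm ih => intro h; exact (ih (by omega)).trans (H.mono m (by omega))
  exact key Q hq le_rfl

lemma EV1_restrict {n k : ℕ} [NeZero k] {f : Polynomial ℂ} {b g : ZMod k → ℂ}
    {ψ : ZMod k → ℂ → ℂ} {ra R ε δ : ℝ} {A : ℕ → ℝ} {G : ℕ → ℂ → ℂ} {Q : ℕ}
    (H : H1 n k f b g ψ ra R ε δ A G (Q + 1)) : H1 n k f b g ψ ra R ε δ A G Q :=
  ⟨H.su, H.d0, H.d1, H.mp, ⟨H.sys.a0, fun q hq => H.sys.mono q (by omega), H.sys.g0,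
    fun q h1 h2 => H.sys.diff q h1 (by omega), fun q hq => H.sys.rel q (by omega),
    fun q hq => H.sys.val q (by omega), fun q h1 h2 => H.sys.disj q h1 (by omega)⟩,
    (Nat.le_succ Q).trans H.hQ⟩

lemma EV1_ofReal_sum (s : Finset ℕ) (f : ℕ → ℝ) :
    ENNReal.ofReal (∑ q ∈ s, f q) ≤ ∑ q ∈ s, ENNReal.ofReal (f q) := by
  classical
  induction s using Finset.induction_on with
  | empty => simp
  | insert a s ha ih =>
    rw [Finset.sum_insert ha, Finset.sum_insert ha]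
    exact ENNReal.ofReal_add_le.trans (add_le_add le_rfl ih)

lemma EV1_exp_inj {wc : ℂ} {d : ℝ} (hd : d ≤ 3) : InjOn Complex.exp (ball wc d) := by
  intro w hw w' hw' h
  obtain ⟨m, hm⟩ := Complex.exp_eq_exp_iff_exists_int.mp h
  have h1 : ‖w - w'‖ < 6 := by
    have h2 : ‖w - w'‖ ≤ ‖w - wc‖ + ‖wc - w'‖ := norm_sub_le_norm_sub_add_norm_sub w wc w'
    rw [mem_ball, dist_eq_norm] at hw hw'
    rw [norm_sub_rev] at hw'
    linarith
  have h3 : m = 0 := by
    by_contra hm0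
    have h4 : w - w' = m * (2 * Real.pi * Complex.I) := by rw [hm]; ring
    rw [h4, norm_mul] at h1
    have h5 : (1 : ℝ) ≤ ‖(m : ℂ)‖ := by
      rw [Complex.norm_intCast]
      exact_mod_cast Int.one_le_abs hm0
    have h6 : ‖(2 * Real.pi * Complex.I : ℂ)‖ = 2 * Real.pi := by
      rw [norm_mul, norm_mul, Complex.norm_I, Complex.norm_real]
      simp [abs_of_pos Real.pi_pos]
    rw [h6] at h1
    have := Real.pi_gt_three
    nlinarith
  rw [hm, h3]
  simp

lemma EV1_HP {a : ℝ} {w : ℂ} (hw : w ∈ HP a) : Complex.exp w ∈ ball (0 : ℂ) (Real.exp (-a)) := by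
  rw [mem_ball_zero_iff, Complex.norm_exp]
  exact Real.exp_lt_exp.mpr hw

lemma EV1_aem (hMI : MI_stmt) {k : ℕ} [NeZero k] {f : Polynomial ℂ} (hf : 1 ≤ f.natDegree)
    {b g : ZMod k → ℂ} {F : ℂ → ℂ} {D : Set ℂ}
    (hD : MeasurableSet D) (hF : DifferentiableOn ℂ F D) :
    AEMeasurable (fun w => ENNReal.ofReal (dens f b g F w)) (volume.restrict D) := by
  obtain ⟨m1, m2, m3, m4, m5, m6⟩ := hMI k f b g hf
  have h1 : AEMeasurable F (volume.restrict D) := hF.continuousOn.aemeasurable hD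
  have h2 : AEMeasurable (fun w => Df f b g (F w)) (volume.restrict D) := m4.comp_aemeasurable h1
  have h3 : AEMeasurable (fun w => ‖er f b g (F w)‖) (volume.restrict D) :=
    (m3.comp_aemeasurable h1).norm
  have h4 : AEMeasurable (fun w => ‖deriv F w‖ ^ 2) (volume.restrict D) :=
    ((measurable_deriv F).norm.pow_const 2).aemeasurable
  exact ((h2.add (h3.const_mul 2)).mul h4).ennreal_ofReal

/-- the numbers -/
lemma EV1_num {n : ℕ} (hn : 2 ≤ n) {δ ε t : ℝ} (hδ : 0 < δ) (hε : ε ≤ δ ^ 2 / cn n)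
    (ht : δ / (4 * n) / 4 ^ n ≤ t) : ε / t ^ 2 ≤ 1 / 4 ^ 38 := by
  have hn0 : (0 : ℝ) < n := by exact_mod_cast (by omega : 0 < n)
  have hs0 : 0 < δ / (4 * n) / 4 ^ n := by positivity
  have ht0 : 0 < t := lt_of_lt_of_le hs0 ht
  have ht2 : (δ / (4 * n) / 4 ^ n) ^ 2 ≤ t ^ 2 := pow_le_pow_left₀ hs0.le ht 2
  have hc : δ ^ 2 / cn n = 1 / 4 ^ 38 * (δ / (4 * n) / 4 ^ n) ^ 2 := by
    unfold cn
    have h1 : (4 : ℝ) ^ (40 + 2 * n) = 4 ^ 38 * 4 ^ 2 * (4 ^ n) ^ 2 := by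
      rw [← pow_mul, ← pow_add, ← pow_add]
      congr 1
      omega
    rw [h1]
    field_simp
  rw [div_le_iff₀ (by positivity)]
  calc ε ≤ δ ^ 2 / cn n := hε
    _ = 1 / 4 ^ 38 * (δ / (4 * n) / 4 ^ n) ^ 2 := hc
    _ ≤ 1 / 4 ^ 38 * t ^ 2 := mul_le_mul_of_nonneg_left ht2 (by positivity)

theorem EV1 (hBDY : BDY_stmt) (hEVT : EVT_stmt) (hP1A : P1A_stmt) (hLEA : LEA_stmt) (hLEI : LEI_stmt)
    (hLV : LV_stmt) (hMI : MI_stmt) (hMA : MA_stmt) (hPT1 : PT1_stmt) : EV1_stmt := by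
  intro n k _ f b g ψ ra R ε δ A G Q H' hε a ha hdisj hBr
  by_contra hcon
  rw [not_lt] at hcon
  have H := EV1_restrict H'
  obtain ⟨A1, A2, A3, A4, A5, A6⟩ := hP1A n k f b g ψ ra R ε δ A G Q H
  obtain ⟨B1, B2, B3, B4, B5, B6⟩ := hP1A n k f b g ψ ra R ε δ A G (Q + 1) H'
  have hd0 := H.d0
  have hd1 := H.d1
  have hn := H.su.hn
  have hdeg := H.su.hdeg
  have hdeg1 : 1 ≤ f.natDegree := by rw [hdeg]; omega
  have hn0 : (2 : ℝ) ≤ n := by exact_mod_cast hn
  set d : ℝ := δ / (4 * n) with hd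
  have hdpos : 0 < d := by rw [hd]; positivity
  have hdle : d ≤ 1 := by
    rw [hd, div_le_one (by positivity)]
    nlinarith
  have haQ : a < A (Q + 1) := by linarith
  have hAmono := EV1_mono H.sys
  -- the boundary point
  obtain ⟨us, ys, hus, hys, hlim⟩ := hBDY f (G Q) (G (Q + 1)) 0 (Real.exp (-A (Q + 1)))
    (Real.exp (-a)) hdeg1 (Real.exp_pos _) (Real.exp_lt_exp.mpr (by linarith))
    ((A1 Q le_rfl).mono (ball_subset_ball (Real.exp_le_exp.mpr (by linarith))))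
    (B1 (Q + 1) le_rfl) (H'.sys.rel Q (by omega))
    (by
      intro r' h1 h2 h3
      have hr' : 0 < r' := (Real.exp_pos _).trans h1
      have h4 := hBr (-Real.log r') (by
        have := Real.log_le_log hr' h2
        rw [Real.log_exp] at this
        linarith) (by
        have := Real.log_lt_log (Real.exp_pos _) h1
        rw [Real.log_exp] at this
        linarith)
      rw [neg_neg, Real.exp_log hr'] at h4
      apply h4
      have h5 := H'.sys.val (Q + 1) le_rfl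
      rw [h5] at h3
      exact h3)
  rw [sub_zero] at hus
  have hus0 : us ≠ 0 := by
    rw [← norm_pos_iff, hus]
    exact Real.exp_pos _
  obtain ⟨ws, hws⟩ : ∃ ws, ws = Complex.log us := ⟨_, rfl⟩
  have hexp : Complex.exp ws = us := by rw [hws]; exact Complex.exp_log hus0
  have hre : ws.re = -A (Q + 1) := by rw [hws, Complex.log_re, hus, Real.log_exp]
  -- the disc
  have hDHP : ∀ w ∈ ball ws d, w ∈ HP a := by
    intro w hw
    have h1 : |(w - ws).re| ≤ ‖w - ws‖ := Complex.abs_re_le_norm _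
    rw [mem_ball, dist_eq_norm] at hw
    have h2 := (abs_le.mp h1).2
    rw [Complex.sub_re] at h2
    change w.re < -a
    linarith
  have hHP : ∀ q ≤ Q, ∀ w ∈ HP a, w ∈ HP (A q) := by
    intro q hq w hw
    have := hAmono q hq
    change w.re < -A q
    have h2 : w.re < -a := hw
    linarith
  have hDHP1 : ∀ w ∈ ball (ws - 1) 1, w ∈ HP (A (Q + 1)) := by
    intro w hw
    have h1 : |(w - (ws - 1)).re| ≤ ‖w - (ws - 1)‖ := Complex.abs_re_le_norm _
    rw [mem_ball, dist_eq_norm] at hw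
    have h2 := (abs_le.mp h1).2
    rw [Complex.sub_re, Complex.sub_re, Complex.one_re] at h2
    change w.re < -A (Q + 1)
    linarith
  have hlev := A4 Q le_rfl
  have hlev' := B4 (Q + 1) le_rfl
  have hopen : ∀ x : ℝ, IsOpen (HP x) := fun x => isOpen_lt Complex.continuous_re continuous_const
  have hdiffD : ∀ q ≤ Q, DifferentiableOn ℂ (GW G q) (ball ws d) := fun q hq =>
    (hlev.diff q hq).mono (fun w hw => hHP Q le_rfl w (hDHP w hw))
  have hinjD : ∀ q ≤ Q, InjOn (GW G q) (ball ws d) := by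
    intro q hq w hw w' hw' h
    refine EV1_exp_inj (by linarith) hw hw' ?_
    exact A2 q hq (EV1_HP (hHP q hq w (hDHP w hw))) (EV1_HP (hHP q hq w' (hDHP w' hw'))) h
  have hmapD : ∀ q ≤ Q, MapsTo (GW G q) (ball ws d) (ball 0 R) := by
    intro q hq w hw
    exact A3 q hq (EV1_HP (hHP q hq w (hDHP w hw)))
  -- the parameters
  have hlog : 0 < Real.log ‖rho f b‖ := Real.log_pos H.su.rho1
  have hE := H.su.hE
  have hint0 : 0 ≤ ∫ z in ball (0 : ℂ) R, ‖er f b g z‖ := integral_nonneg (fun z => norm_nonneg _)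
  have hpi := Real.pi_pos
  have hlogpi : 0 ≤ 2 * Real.pi * Real.log ‖rho f b‖ := by positivity
  have hε0 : 0 ≤ ε := by linarith
  have hbR : ∀ j, ‖b j‖ < R := fun j => (H.su.hra j).trans_lt H.su.hR
  -- the mass bounds
  have hMA' := hMA n k f b g R hn hdeg H.su.cyc H.su.rho1 H.su.posR hbR H.su.inv (Q + 1) 1
      (fun _ => ball ws d) (GW G)
      (fun q hq => ⟨isOpen_ball, hdiffD q (by omega), hinjD q (by omega), hmapD q (by omega)⟩)
      (by
        intro z F hF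
        rw [Finset.card_le_one]
        have key : ∀ q ∈ F, ∀ q' ∈ F, q < q' → False := by
          intro q hq q' hq' hlt
          obtain ⟨h1, w, hw, h2⟩ := hF q hq
          obtain ⟨h3, w', hw', h4⟩ := hF q' hq'
          have h5 := A6 a ha hdisj q q' hlt (by omega)
          rw [Set.disjoint_left] at h5
          exact h5 ⟨Complex.exp w, EV1_HP (hDHP w hw), h2⟩ ⟨Complex.exp w', EV1_HP (hDHP w' hw'), h4⟩
        intro q hq q' hq'
        rcases lt_trichotomy q q' with h | h | h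
        · exact (key q hq q' hq' h).elim
        · exact h
        · exact (key q' hq' q hq h).elim)
  have hLVQ := hLV k f b g (GW G) (HP (A Q)) Q hdeg1 H.su.cyc (hopen _) hlev
  have hint1 : ∫⁻ w in ball ws d, ENNReal.ofReal
      ((pre f (GW G Q w)).map fun y => ‖brv f b g (GW G Q) w y‖ - (brv f b g (GW G Q) w y).re).sum ≤
      ENNReal.ofReal ε := by
    have hstep1 : ∫⁻ w in ball ws d, ENNReal.ofReal
        ((pre f (GW G Q w)).map fun y => ‖brv f b g (GW G Q) w y‖ - (brv f b g (GW G Q) w y).re).sum ≤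
        ∫⁻ w in ball ws d, ∑ q ∈ Finset.range (Q + 1), ENNReal.ofReal (dens f b g (GW G q) w) := by
      refine setLIntegral_mono_ae' measurableSet_ball (Eventually.of_forall fun w hw => ?_)
      have h4 := hLVQ.2.1 Q le_rfl w (hHP Q le_rfl w (hDHP w hw))
      refine (ENNReal.ofReal_le_ofReal h4).trans ?_
      exact EV1_ofReal_sum _ _
    refine hstep1.trans ?_
    rw [lintegral_finsetSum' _ (fun q hq => EV1_aem hMI hdeg1 measurableSet_ball
      (hdiffD q (by rw [Finset.mem_range] at hq; omega)))]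
    refine hMA'.1.trans ?_
    rw [Nat.cast_one, one_mul]
    exact ENNReal.ofReal_le_ofReal (by linarith)
  have hint2 : ∫⁻ w in ball ws d, ENNReal.ofReal (‖er f b g (GW G Q w)‖ * ‖deriv (GW G Q) w‖ ^ 2) ≤
      ENNReal.ofReal ε := by
    have h1 : ∫⁻ w in ball ws d, ENNReal.ofReal (‖er f b g (GW G Q w)‖ * ‖deriv (GW G Q) w‖ ^ 2) ≤
        ∑ q ∈ Finset.range (Q + 1),
          ∫⁻ w in ball ws d, ENNReal.ofReal (‖er f b g (GW G q w)‖ * ‖deriv (GW G q) w‖ ^ 2) :=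
      Finset.single_le_sum (f := fun q => ∫⁻ w in ball ws d,
        ENNReal.ofReal (‖er f b g (GW G q w)‖ * ‖deriv (GW G q) w‖ ^ 2)) (fun q _ => zero_le)
        (Finset.mem_range.mpr (by omega))
    refine h1.trans (hMA'.2.trans ?_)
    rw [Nat.cast_one, one_mul]
    exact ENNReal.ofReal_le_ofReal (by linarith)
  -- the limit in the logarithmic coordinate
  have hlimw : Tendsto (GW G (Q + 1)) (𝓝[ball (ws - 1) 1] ws) (𝓝 ys) := by
    have h1 : Tendsto Complex.exp (𝓝[ball (ws - 1) 1] ws) (𝓝[ball 0 (Real.exp (-A (Q + 1)))] us) := by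
      rw [← hexp]
      refine tendsto_nhdsWithin_of_tendsto_nhds_of_eventually_within _
        (Complex.continuous_exp.continuousAt.tendsto.mono_left nhdsWithin_le_nhds) ?_
      filter_upwards [self_mem_nhdsWithin] with w hw
      exact EV1_HP (hDHP1 w hw)
    exact hlim.comp h1
  have hws1 : ‖ws - (ws - 1)‖ = 1 := by
    have : ws - (ws - 1) = 1 := by ring
    rw [this, norm_one]
  obtain ⟨t, ht1, ht2, ht3⟩ := hEVT n k f b g (GW G Q) (GW G (Q + 1)) (ws - 1) ws ys 1 d ε hn hdeg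
    H.su.cyc hdpos hdle hε0 hws1 (hdiffD Q le_rfl) (hinjD Q le_rfl)
    (fun w hw j => (hLEA k f b g (GW G) (HP (A Q)) Q H.su.cyc (hopen _) hlev).1 Q le_rfl w
      (hHP Q le_rfl w (hDHP w hw)) j)
    ((hlev'.diff (Q + 1) le_rfl).mono hDHP1)
    (fun w hw => hlev'.rel Q (by omega) w (hDHP1 w hw.1)) hys hlimw hint1 hint2
  have hs0 : 0 < d / 4 ^ n := by positivity
  have ht0 : 0 < t := lt_of_lt_of_le hs0 ht1
  obtain ⟨w₀, hw₀⟩ : ∃ w₀ : ℂ, w₀ = ws + ((t / (2 * 1) : ℝ) : ℂ) * (ws - 1 - ws) := ⟨_, rfl⟩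
  have hfin := ht3 w₀ hw₀
  have hw₀re : w₀.re = -(A (Q + 1) + t / 2) := by
    have h1 : w₀ = ws - ((t / 2 : ℝ) : ℂ) := by
      rw [hw₀]
      push_cast
      ring
    rw [h1, Complex.sub_re, Complex.ofReal_re, hre]
    ring
  have hw₀HP : w₀ ∈ HP (A (Q + 1)) := by
    change w₀.re < -A (Q + 1)
    rw [hw₀re]
    linarith
  obtain ⟨e1, e2, e3, e4⟩ := hLEI k f b g (GW G) (HP (A (Q + 1))) (Q + 1) hdeg1 H.su.cyc (hopen _) hlev'
  have hbrv := (e2 Q (by omega) w₀ hw₀HP).2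
  rw [hbrv] at hfin
  have htau : deriv (GW G Q) w₀ ^ 2 * BB b g (GW G Q w₀) = tau b g (GW G) Q w₀ := rfl
  rw [htau] at hfin
  obtain ⟨p1, p2, p3⟩ := hPT1 n k f b g ψ ra R ε δ A G (Q + 1) H' (Q + 1) (by omega) le_rfl w₀ (t / 2)
    (by linarith) hw₀re
  have hsum := p1 (by linarith)
  have hlevnn : ∀ q, 0 ≤ lev b g (GW G) q w₀ := fun q => norm_nonneg _
  have hlev1 : lev b g (GW G) (Q + 1) w₀ ≤ 4 * ε / (t / 2) ^ 2 := by
    refine le_trans ?_ hsum
    exact Finset.single_le_sum (f := fun q => lev b g (GW G) q w₀) (fun q _ => hlevnn q)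
      (Finset.mem_Icc.mpr ⟨by omega, le_rfl⟩)
  have hlev2 : ‖tau b g (GW G) Q w₀ - tau b g (GW G) (Q + 1) w₀‖ ≤ 4 * ε / (t / 2) ^ 2 := hlev1
  have htau1 : 1 - 4 * ε / (t / 2) ^ 2 ≤ ‖tau b g (GW G) (Q + 1) w₀‖ := by
    have h1 := p3.trans hsum
    have h2 : ‖(1 : ℂ)‖ - ‖tau b g (GW G) (Q + 1) w₀‖ ≤ ‖(1 : ℂ) - tau b g (GW G) (Q + 1) w₀‖ :=
      norm_sub_norm_le _ _
    rw [norm_sub_rev, norm_one] at h2
    linarith
  have hx := EV1_num hn hd0 hε ht1
  have hx0 : 0 ≤ ε / t ^ 2 := by positivity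
  have hy1 : 4 * ε / (t / 2) ^ 2 = 16 * (ε / t ^ 2) := by
    field_simp
    ring
  have hy2 : 100 * ε / t ^ 2 = 100 * (ε / t ^ 2) := by ring
  rw [hy1] at hlev2 htau1
  rw [hy2] at hfin
  have h4 : (4 : ℝ) ^ 21 = 4398046511104 := by norm_num
  have h5 : (1 : ℝ) / 4 ^ 38 ≤ 1 / (4398046511104 * 1000) := by norm_num
  rw [h4] at hfin
  have h6 := hx.trans h5
  have h7 : ‖tau b g (GW G) (Q + 1) w₀‖ ≤ 4398046511104 * (116 * (ε / t ^ 2)) := by
    refine hfin.trans ?_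
    apply mul_le_mul_of_nonneg_left _ (by norm_num)
    linarith
  rw [le_div_iff₀ (by norm_num)] at h6
  linarith

end PPS
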