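import Pool.Agent.helper36.PP.SpecB

/-!
# PT1 of project pp: pointwise bounds of the level functions
-/

set_option autoImplicit false

open Complex Metric Set Filter Topology MeasureTheory MPS

noncomputable section

namespace PPS

theorem PT1_mono (A : ℕ → ℝ) (Q : ℕ) (h : ∀ q, q < Q → A q ≤ A (q + 1)) (p : ℕ) (hp : p ≤ Q) :
    ∀ q, q ≤ p → A q ≤ A p := by
  induction p with
  | zero =>
    intro q hq
    rw [Nat.le_zero.1 hq]
  | succ p ih =>
    intro q hq
    rcases Nat.lt_or_ge q (p + 1) with h1 | h1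
    · exact (ih (by omega) q (by omega)).trans (h p (by omega))
    · rw [le_antisymm hq h1]

theorem PT1_eps {n k : ℕ} [NeZero k] {f : Polynomial ℂ} {b g : ZMod k → ℂ} {ψ : ZMod k → ℂ → ℂ}
    {ra R ε : ℝ} (h : SU n k f b g ψ ra R ε) : 0 < ε := by
  have h1 := h.hE
  have h2 : 0 < Real.log ‖rho f b‖ := Real.log_pos h.rho1
  have h3 : 0 ≤ ∫ z in ball (0 : ℂ) R, ‖er f b g z‖ := integral_nonneg fun z => norm_nonneg _
  have h4 : 0 < 2 * Real.pi * Real.log ‖rho f b‖ := by positivity
  linarith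

theorem PT1 (hMU : MU1_stmt) (hP1A : P1A_stmt) (hP1U : P1U_stmt) (hHMX : MPS.HMX_stmt)
    (hLV : LV_stmt) : PT1_stmt := by
  intro n k _ f b g ψ ra R ε δ A G Q hH p hp1 hpQ
  have hε : 0 < ε := PT1_eps hH.su
  have hn := hH.su.hn
  have hdeg1 : 1 ≤ f.natDegree := by rw [hH.su.hdeg]; omega
  obtain ⟨μ, hμ1, hμ2⟩ := hMU n k f b g ψ ra R ε δ A G Q hH
  have hmono := PT1_mono A Q hH.sys.mono p hpQ
  -- the first bound
  have hfirst : ∀ (w : ℂ) (t : ℝ), 0 < t → w.re = -(A p + t) → t ≤ 1 →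
      ∑ q ∈ Finset.Icc 1 p, lev b g (GW G) q w ≤ 4 * ε / t ^ 2 := by
    intro w t ht hw ht1
    have h1 := hμ2 p hp1 hpQ (A p) t w le_rfl ht ht1 hw
    have h2 : μ (Ioo (A p + t / 2) (A p + 3 * t / 2)) ≤ ENNReal.ofReal (3 * ε) :=
      (measure_mono (subset_univ _)).trans hμ1
    have h3 : ENNReal.ofReal (∑ q ∈ Finset.Icc 1 p, lev b g (GW G) q w) ≤
        ENNReal.ofReal (4 * ε / t ^ 2) := by
      refine h1.trans ((mul_le_mul_right h2 _).trans ?_)
      rw [← ENNReal.ofReal_mul (by positivity)]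
      refine ENNReal.ofReal_le_ofReal ?_
      have hpi := Real.pi_gt_three
      have e : 4 / (Real.pi * t ^ 2) * (3 * ε) = (3 / Real.pi) * (4 * ε / t ^ 2) := by
        field_simp
      rw [e]
      have h4 : 3 / Real.pi ≤ 1 := by
        rw [div_le_one Real.pi_pos]
        exact hpi.le
      have h5 : 0 ≤ 4 * ε / t ^ 2 := by positivity
      nlinarith
    exact (ENNReal.ofReal_le_ofReal_iff (by positivity)).1 h3
  intro w t ht hw
  refine ⟨fun ht1 => hfirst w t ht hw ht1, ?_, ?_⟩
  · intro ht1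
    obtain ⟨hU1, -⟩ := hP1U n k f b g ψ ra R ε δ A G Q hH
    have hex : ∀ q : ℕ, q ∈ Finset.Icc 1 p → ∃ H : ℂ → ℂ,
        DifferentiableOn ℂ H (ball 0 (Real.exp (-A p))) ∧ H 0 = 0 ∧
          ∀ w ∈ HP (A p), tau b g (GW G) (q - 1) w - tau b g (GW G) q w = H (Complex.exp w) := by
      intro q hi
      rw [Finset.mem_Icc] at hi
      obtain ⟨hq1, hqp⟩ := hi
      have hsub : ∀ q ≤ p, ball (0 : ℂ) (Real.exp (-A p)) ⊆ ball 0 (Real.exp (-A q)) :=
        fun q hqp => ball_subset_ball (Real.exp_le_exp.2 (neg_le_neg (hmono q hqp)))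
      have hsub2 : ∀ q ≤ p, HP (A p) ⊆ HP (A q) := by
        intro q hqp w hw
        have h1 : w.re < -A p := hw
        have h2 := hmono q hqp
        show w.re < -A q
        linarith
      obtain ⟨H1, a1, a2, a3⟩ := hU1 (q - 1) (by omega)
      obtain ⟨H2, c1, c2, c3⟩ := hU1 q (hqp.trans hpQ)
      refine ⟨fun u => H1 u - H2 u, (a1.mono (hsub (q - 1) (by omega))).sub (c1.mono (hsub q hqp)),
        by show H1 0 - H2 0 = 0; rw [a2, c2, sub_self], fun w hw => ?_⟩
      rw [a3 w (hsub2 (q - 1) (by omega) hw), c3 w (hsub2 q hqp hw)]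
    choose! H hH1 hH2 hH3 using hex
    have hsum : ∀ w ∈ HP (A p), ∑ i ∈ Finset.Icc 1 p, ‖H i (Complex.exp w)‖ =
        ∑ q ∈ Finset.Icc 1 p, lev b g (GW G) q w := by
      intro w hw
      refine Finset.sum_congr rfl fun q hq => ?_
      unfold lev
      rw [hH3 q hq w hw]
    have hmx := hHMX ℕ (Finset.Icc 1 p) H (Real.exp (-A p)) (Real.exp (-(A p + 1))) (4 * ε)
      (Real.exp_pos _) (Real.exp_lt_exp.2 (by linarith)) (fun i hi => ⟨hH1 i hi, hH2 i hi⟩) (by
        intro u hu
        have hu0 : u ≠ 0 := by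
          intro h
          rw [h, norm_zero] at hu
          exact (Real.exp_pos _).ne hu
        have hre : (Complex.log u).re = -(A p + 1) := by
          rw [Complex.log_re, hu, Real.log_exp]
        have hmem : Complex.log u ∈ HP (A p) := by
          show (Complex.log u).re < -A p
          rw [hre]
          linarith
        have h1 := hsum _ hmem
        rw [Complex.exp_log hu0] at h1
        rw [h1]
        have h2 := hfirst (Complex.log u) 1 one_pos hre le_rfl
        simpa using h2)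
    have hwm : w ∈ HP (A p) := by
      show w.re < -A p
      rw [hw]
      linarith
    have hnorm : ‖Complex.exp w‖ = Real.exp (-(A p + t)) := by
      rw [Complex.norm_exp, hw]
    have h3 := hmx (Complex.exp w) (by
      rw [hnorm]
      exact Real.exp_le_exp.2 (by linarith))
    rw [hsum w hwm, hnorm] at h3
    refine h3.trans (le_of_eq ?_)
    rw [mul_div_assoc, ← Real.exp_sub]
    congr 2
    ring
  · obtain ⟨-, -, -, hL, -, -⟩ := hP1A n k f b g ψ ra R ε δ A G Q hH
    have hopen : IsOpen (HP (A p)) := isOpen_lt Complex.continuous_re continuous_const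
    obtain ⟨-, -, -, h4, -⟩ := hLV k f b g (GW G) (HP (A p)) p hdeg1 hH.su.cyc hopen (hL p hpQ)
    have hwm : w ∈ HP (A p) := by
      show w.re < -A p
      rw [hw]
      linarith
    exact h4 p le_rfl w hwm

end PPS
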