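import Pool.Agent.helper36.PP.SpecB

/-! # Project pp, module STEP1: one more level -/

set_option autoImplicit false

open Complex Metric Set Filter Topology MeasureTheory MPS

noncomputable section

namespace PPS

/-- local inverse of the polynomial -/
theorem STEP1_loc (f : Polynomial ℂ) (v : ℂ) (hv : fd f v ≠ 0) :
    ∃ g : ℂ → ℂ, AnalyticAt ℂ g (f.eval v) ∧ g (f.eval v) = v ∧
      ∀ᶠ z in 𝓝 (f.eval v), f.eval (g z) = z ∧ fd f (g z) ≠ 0 := by
  have hf : AnalyticAt ℂ (fun z => f.eval z) v := f.differentiable.analyticAt v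
  have hd : deriv (fun z => f.eval z) v ≠ 0 := by
    rw [Polynomial.deriv]
    exact hv
  refine ⟨hf.hasStrictDerivAt.localInverse _ _ _ hd, hf.analyticAt_localInverse hd, ?_, ?_⟩
  · exact HasStrictFDerivAt.localInverse_apply_image ..
  · have h1 := HasStrictDerivAt.eventually_right_inverse hf.hasStrictDerivAt hd
    have h2 : ContinuousAt (hf.hasStrictDerivAt.localInverse _ _ _ hd) (f.eval v) :=
      (hf.analyticAt_localInverse hd).continuousAt
    have h3 : hf.hasStrictDerivAt.localInverse _ _ _ hd (f.eval v) = v :=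
      HasStrictFDerivAt.localInverse_apply_image ..
    have h4 : ContinuousAt (fun z => fd f (hf.hasStrictDerivAt.localInverse _ _ _ hd z))
        (f.eval v) := by
      have h5 : Continuous (fd f) := f.derivative.continuous
      exact h5.continuousAt.comp h2
    have h6 : ∀ᶠ z in 𝓝 (f.eval v), fd f (hf.hasStrictDerivAt.localInverse _ _ _ hd z) ≠ 0 := by
      refine h4.eventually_ne ?_
      rw [h3]
      exact hv
    exact h1.and h6

/-- gluing of the branches on increasing discs -/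
theorem STEP1_glue (hLUN : LUN_stmt) (f : Polynomial ℂ) (F : ℂ → ℂ) (v : ℂ) (S : Set ℝ) (U : Set ℂ)
    (hS : ∀ s ∈ S, Br f F (ball 0 (Real.exp (-s))) 0 v)
    (hU : ∀ u ∈ U, ∃ s ∈ S, u ∈ ball (0 : ℂ) (Real.exp (-s))) (hUo : IsOpen U) (h0 : 0 ∈ U) :
    Br f F U 0 v := by
  choose! h h1 h2 h3 using hS
  choose! σ hσ1 hσ2 using hU
  have key : ∀ s ∈ S, ∀ s' ∈ S, s' ≤ s → EqOn (h s) (h s') (ball 0 (Real.exp (-s))) := by
    intro s hs s' hs' hle
    have hsub : ball (0 : ℂ) (Real.exp (-s)) ⊆ ball 0 (Real.exp (-s')) :=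
      ball_subset_ball (Real.exp_le_exp.mpr (by linarith))
    refine hLUN f (ball 0 (Real.exp (-s))) (h s) (h s') 0 isOpen_ball
      (convex_ball _ _).isPreconnected (h1 s hs).continuousOn
      ((h1 s' hs').continuousOn.mono hsub) ?_ ?_ (mem_ball_self (Real.exp_pos _)) ?_
    · intro w hw
      rw [(h3 s hs w hw).1, (h3 s' hs' w (hsub hw)).1]
    · intro w hw
      exact (h3 s hs w hw).2
    · rw [h2 s hs, h2 s' hs']
  have key2 : ∀ s ∈ S, ∀ s' ∈ S, ∀ u : ℂ, u ∈ ball (0 : ℂ) (Real.exp (-s)) →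
      u ∈ ball (0 : ℂ) (Real.exp (-s')) → h s u = h s' u := by
    intro s hs s' hs' u hu hu'
    rcases le_total s' s with hle | hle
    · exact key s hs s' hs' hle hu
    · exact (key s' hs' s hs hle hu').symm
  have hloc : ∀ s ∈ S, ∀ u ∈ U, u ∈ ball (0 : ℂ) (Real.exp (-s)) → h (σ u) u = h s u :=
    fun s hs u hu hus => key2 (σ u) (hσ1 u hu) s hs u (hσ2 u hu) hus
  refine ⟨fun u => h (σ u) u, ?_, ?_, ?_⟩
  · intro u hu
    have hs := hσ1 u hu
    have hus := hσ2 u hu
    have h4 : (fun u => h (σ u) u) =ᶠ[𝓝 u] h (σ u) := by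
      filter_upwards [hUo.mem_nhds hu, isOpen_ball.mem_nhds hus] with u' hu' hus'
      exact hloc (σ u) hs u' hu' hus'
    have h5 : DifferentiableAt ℂ (h (σ u)) u :=
      (h1 (σ u) hs).differentiableAt (isOpen_ball.mem_nhds hus)
    exact (h4.differentiableAt_iff.mpr h5).differentiableWithinAt
  · exact h2 (σ 0) (hσ1 0 h0)
  · intro u hu
    exact h3 (σ u) (hσ1 u hu) u (hσ2 u hu)

theorem STEP1 (hLUN : LUN_stmt) : STEP1_stmt := by
  intro n k _ f b g ψ ra R ε δ A G Q H hQk
  have su := H.su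
  have sys := H.sys
  have hcyc := su.cyc
  have hpn : PN b g 0 (ψ 0) 1 := (su.mx 0).pn
  have hval : G Q 0 = b (-(Q : ZMod k)) := sys.val Q le_rfl
  have hQZ : -((Q + 1 : ℕ) : ZMod k) + 1 = -(Q : ZMod k) := by
    push_cast
    ring
  have hstep := hcyc.step (-((Q + 1 : ℕ) : ZMod k))
  rw [hQZ] at hstep
  have hdiff : DifferentiableOn ℂ (G Q) (ball 0 (Real.exp (-A Q))) := by
    rcases Nat.eq_zero_or_pos Q with h0 | h0
    · rw [h0, sys.g0]
      refine hpn.diff.mono (ball_subset_ball ?_)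
      rw [Real.exp_le_one_iff]
      have := sys.a0
      have := H.d0
      linarith
    · exact sys.diff Q h0 le_rfl
  have hcont : ContinuousAt (G Q) 0 :=
    (hdiff.differentiableAt (isOpen_ball.mem_nhds (mem_ball_self (Real.exp_pos _)))).continuousAt
  obtain ⟨S, hS⟩ : ∃ S : Set ℝ, S = {a | A Q ≤ a ∧ ¬ Fail1 f b (ψ 0) δ G Q a} := ⟨_, rfl⟩
  have hmemS : ∀ a, a ∈ S ↔ A Q ≤ a ∧ ¬ Fail1 f b (ψ 0) δ G Q a := by
    intro a
    rw [hS]
    exact Iff.rfl
  -- S is not empty
  have hne : S.Nonempty := by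
    obtain ⟨g₀, hg1, hg2, hg3⟩ := STEP1_loc f (b (-((Q + 1 : ℕ) : ZMod k))) (hcyc.ne0 _)
    rw [hstep, ← hval] at hg1 hg2 hg3
    have h1 : ∀ᶠ u in 𝓝 (0 : ℂ), f.eval (g₀ (G Q u)) = G Q u ∧ fd f (g₀ (G Q u)) ≠ 0 :=
      hcont.eventually hg3
    have h1' : ∀ᶠ u in 𝓝 (0 : ℂ), DifferentiableAt ℂ g₀ (G Q u) :=
      hcont.eventually (hg1.eventually_analyticAt.mono fun z hz => hz.differentiableAt)
    have h2 : ∀ᶠ u in 𝓝 (0 : ℂ), 1 ≤ Q → G Q u ∉ ψ 0 '' ball 0 (Real.exp (-δ)) := by
      by_cases hQ1 : 1 ≤ Q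
      · have hδ1 : Real.exp (-δ) < 1 := by
          rw [Real.exp_lt_one_iff]
          have := H.d0
          linarith
        have hsub : closedBall (0 : ℂ) (Real.exp (-δ)) ⊆ ball 0 1 :=
          closedBall_subset_ball hδ1
        have hcomp : IsCompact (ψ 0 '' closedBall (0 : ℂ) (Real.exp (-δ))) :=
          (isCompact_closedBall _ _).image_of_continuousOn (hpn.diff.continuousOn.mono hsub)
        have hnot : G Q 0 ∉ ψ 0 '' closedBall (0 : ℂ) (Real.exp (-δ)) := by
          rintro ⟨u, hu, hu2⟩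
          rw [hval] at hu2
          by_cases hu0 : u = 0
          · rw [hu0, hpn.val] at hu2
            have h3 := hcyc.inj hu2
            have h4 : (Q : ZMod k) = 0 := by
              rw [← neg_eq_zero]
              exact h3.symm
            rw [ZMod.natCast_eq_zero_iff] at h4
            exact absurd (Nat.le_of_dvd (by omega) h4) (by omega)
          · exact hpn.av u (hsub hu) hu0 _ hu2
        have h5 := hcont.eventually (hcomp.isClosed.isOpen_compl.mem_nhds hnot)
        filter_upwards [h5] with u hu _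
        intro h6
        exact hu (image_mono ball_subset_closedBall h6)
      · exact Filter.Eventually.of_forall fun u h => absurd h hQ1
    obtain ⟨η, hη, h3⟩ := Metric.eventually_nhds_iff_ball.mp ((h1.and h1').and h2)
    obtain ⟨a, ha1, ha2⟩ : ∃ a : ℝ, A Q ≤ a ∧ Real.exp (-a) ≤ η := by
      refine ⟨max (A Q) (-Real.log η), le_max_left _ _, ?_⟩
      calc Real.exp (-(max (A Q) (-Real.log η))) ≤ Real.exp (Real.log η) := by
            apply Real.exp_le_exp.mpr
            have := le_max_right (A Q) (-Real.log η)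
            linarith
        _ = η := Real.exp_log hη
    refine ⟨a, (hmemS a).mpr ⟨ha1, ?_⟩⟩
    have hb : ball (0 : ℂ) (Real.exp (-a)) ⊆ ball 0 η := ball_subset_ball ha2
    have hb2 : ball (0 : ℂ) (Real.exp (-a)) ⊆ ball 0 (Real.exp (-A Q)) :=
      ball_subset_ball (Real.exp_le_exp.mpr (by linarith))
    rintro (⟨hQ1, hd⟩ | hnB)
    · apply hd
      rw [Set.disjoint_left]
      rintro _ ⟨u, hu, rfl⟩
      exact (h3 u (hb hu)).2 hQ1
    · apply hnB
      refine ⟨fun u => g₀ (G Q u), ?_, hg2, fun u hu => (h3 u (hb hu)).1.1⟩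
      intro u hu
      have h6 : DifferentiableAt ℂ (G Q) u :=
        hdiff.differentiableAt (isOpen_ball.mem_nhds (hb2 hu))
      exact ((h3 u (hb hu)).1.2.comp u h6).differentiableWithinAt
  have hbdd : BddBelow S := ⟨A Q, fun a ha => ((hmemS a).mp ha).1⟩
  obtain ⟨a', ha'⟩ : ∃ a', a' = sInf S := ⟨_, rfl⟩
  have hAa' : A Q ≤ a' := by
    rw [ha']
    exact le_csInf hne fun a ha => ((hmemS a).mp ha).1
  -- points of the ball belong to smaller balls
  have hsm : ∀ u ∈ ball (0 : ℂ) (Real.exp (-a')), ∃ s ∈ S, u ∈ ball (0 : ℂ) (Real.exp (-s)) := by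
    intro u hu
    rw [mem_ball_zero_iff] at hu
    by_cases hu0 : u = 0
    · obtain ⟨s, hs⟩ := hne
      exact ⟨s, hs, by rw [hu0]; exact mem_ball_self (Real.exp_pos _)⟩
    · have hu1 : 0 < ‖u‖ := norm_pos_iff.mpr hu0
      have h1 : Real.log ‖u‖ < -a' := (Real.log_lt_iff_lt_exp hu1).mpr hu
      obtain ⟨s, hs, hs2⟩ := exists_lt_of_csInf_lt hne (show sInf S < -Real.log ‖u‖ by
        rw [← ha']
        linarith)
      refine ⟨s, hs, ?_⟩
      rw [mem_ball_zero_iff, ← Real.log_lt_iff_lt_exp hu1]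
      linarith
  have hdisj : 1 ≤ Q → Disjoint (G Q '' ball 0 (Real.exp (-a'))) (ψ 0 '' ball 0 (Real.exp (-δ))) := by
    intro hQ1
    rw [Set.disjoint_left]
    rintro _ ⟨u, hu, rfl⟩ h
    obtain ⟨s, hs, hus⟩ := hsm u hu
    refine ((hmemS s).mp hs).2 (Or.inl ⟨hQ1, ?_⟩)
    rw [Set.not_disjoint_iff]
    exact ⟨G Q u, ⟨u, hus, rfl⟩, h⟩
  -- the branch
  obtain ⟨g', hg1, hg2, hg3⟩ := STEP1_glue hLUN f (G Q) (b (-((Q + 1 : ℕ) : ZMod k))) S
    (ball 0 (Real.exp (-a'))) (fun s hs => by
      by_contra h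
      exact ((hmemS s).mp hs).2 (Or.inr h)) hsm isOpen_ball (mem_ball_self (Real.exp_pos _))
  refine ⟨a', g', hAa', ?_, ?_⟩
  · have uA : ∀ q, q ≤ Q → Function.update A (Q + 1) a' q = A q := fun q hq =>
      Function.update_of_ne (by omega) _ _
    have uA' : Function.update A (Q + 1) a' (Q + 1) = a' := Function.update_self _ _ _
    have uG : ∀ q, q ≤ Q → Function.update G (Q + 1) g' q = G q := fun q hq =>
      Function.update_of_ne (by omega) _ _
    have uG' : Function.update G (Q + 1) g' (Q + 1) = g' := Function.update_self _ _ _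
    refine ⟨su, H.d0, H.d1, H.mp, ⟨?_, ?_, ?_, ?_, ?_, ?_, ?_⟩, by omega⟩
    · rw [uA 0 (by omega)]
      exact sys.a0
    · intro q hq
      rcases Nat.lt_or_ge q Q with h | h
      · rw [uA q (by omega), uA (q + 1) (by omega)]
        exact sys.mono q h
      · have h1 : q = Q := by omega
        rw [h1, uA Q le_rfl, uA']
        exact hAa'
    · rw [uG 0 (by omega)]
      exact sys.g0
    · intro q hq1 hq2
      rcases Nat.lt_or_ge Q q with h | h
      · have h1 : q = Q + 1 := by omega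
        rw [h1, uA', uG']
        exact hg1
      · rw [uA q h, uG q h]
        exact sys.diff q hq1 h
    · intro q hq u hu
      rcases Nat.lt_or_ge q Q with h | h
      · rw [uA (q + 1) (by omega)] at hu
        rw [uG q (by omega), uG (q + 1) (by omega)]
        exact sys.rel q h u hu
      · have h1 : q = Q := by omega
        rw [h1, uA'] at hu
        rw [h1, uG Q le_rfl, uG']
        exact hg3 u hu
    · intro q hq
      rcases Nat.lt_or_ge Q q with h | h
      · have h1 : q = Q + 1 := by omega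
        rw [h1, uG']
        exact hg2
      · rw [uG q h]
        exact sys.val q h
    · intro q hq1 hq2
      rcases Nat.lt_or_ge q Q with h | h
      · rw [uA (q + 1) (by omega), uG q (by omega)]
        exact sys.disj q hq1 h
      · have h1 : q = Q := by omega
        rw [h1, uA', uG Q le_rfl]
        exact hdisj (by omega)
  · intro a ha1 ha2
    by_contra h
    have h1 : a ∈ S := (hmemS a).mpr ⟨ha1.le, h⟩
    have h2 := csInf_le hbdd h1
    rw [← ha'] at h2
    linarith

end PPS
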