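import Pool.Agent.helper57.PP.Spec

/-!
# pp:FAN — the triangles below the path at a vertex without chords form a fan
-/

set_option autoImplicit false

namespace Pool.Agent.helper57.PP

open Finset

section FANaux

variable {W : Type} [DecidableEq W]

/-- the link of `x` in `R` -/
def FAN_L (R : Finset (Finset W)) (x : W) : Finset (Finset W) :=
  (cof R {x}).image (fun t => t.erase x)

theorem FAN_mem {R : Finset (Finset W)} {x : W} {e : Finset W} :
    e ∈ FAN_L R x ↔ x ∉ e ∧ insert x e ∈ R := by
  unfold FAN_L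
  rw [mem_image]
  constructor
  · rintro ⟨t, ht, rfl⟩
    rw [mem_cof, singleton_subset_iff] at ht
    refine ⟨notMem_erase _ _, ?_⟩
    rw [insert_erase ht.2]
    exact ht.1
  · rintro ⟨h1, h2⟩
    refine ⟨insert x e, ?_, erase_insert h1⟩
    rw [mem_cof, singleton_subset_iff]
    exact ⟨h2, mem_insert_self _ _⟩

theorem FAN_dgx (R : Finset (Finset W)) (x : W) : dg (FAN_L R x) x = 0 := by
  unfold dg
  rw [card_eq_zero, filter_eq_empty_iff]
  intro e he
  exact (FAN_mem.1 he).1

theorem FAN_dg (R : Finset (Finset W)) {x y : W} (hxy : y ≠ x) :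
    dg (FAN_L R x) y = (cof R {x, y}).card := by
  have h : cof R {x, y} = ((FAN_L R x).filter fun e => y ∈ e).image (insert x) := by
    ext t
    rw [mem_cof, mem_image]
    constructor
    · rintro ⟨h1, h2⟩
      have hx : x ∈ t := h2 (by simp)
      have hy : y ∈ t := h2 (by simp)
      refine ⟨t.erase x, ?_, insert_erase hx⟩
      rw [mem_filter, FAN_mem, insert_erase hx]
      exact ⟨⟨notMem_erase _ _, h1⟩, mem_erase.2 ⟨hxy, hy⟩⟩
    · rintro ⟨e, he, rfl⟩
      rw [mem_filter, FAN_mem] at he
      refine ⟨he.1.2, ?_⟩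
      intro w hw
      rw [mem_insert, mem_singleton] at hw
      rcases hw with rfl | rfl
      · exact mem_insert_self _ _
      · exact mem_insert_of_mem he.2
  rw [h, card_image_of_injOn]
  · rfl
  · intro e he e' he' hee
    have h1 : x ∉ e := (FAN_mem.1 (mem_filter.1 he).1).1
    have h2 : x ∉ e' := (FAN_mem.1 (mem_filter.1 he').1).1
    have h3 : insert x e = insert x e' := hee
    rw [← erase_insert h1, h3, erase_insert h2]

end FANaux

/-- FAN -/
theorem FAN (h1 : WALK_stmt) : FAN_stmt := by
  intro W _ T R a z bs ts A1 y0 x yr B hD hS hx hch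
  have hnd := hS.nd
  have hne : x ≠ y0 ∧ x ≠ yr ∧ y0 ≠ yr := by
    simp only [List.nodup_append, List.nodup_cons, List.mem_cons] at hnd
    grind
  obtain ⟨hx0, hxr, h0r⟩ := hne
  -- the degrees
  have hodd : ∀ y, y ≠ x → (Odd (cof R {x, y}).card ↔ ({x, y} : Finset W) ∈
      pe (A1 ++ y0 :: x :: yr :: B)) := by
    intro y hy
    have hc : ({x, y} : Finset W).card = 2 := card_pair (Ne.symm hy)
    have hb : ({x, y} : Finset W) ∉ pe (pth a bs z) := by
      intro hh
      exact hx (mem_of_mem_pe hh (by simp))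
    have h2 : ({x, y} : Finset W) ∈ bd R ↔ Odd (cof R {x, y}).card := by
      rw [mem_bd]
      exact ⟨fun h => h.2, fun h => ⟨hc, h⟩⟩
    rw [← h2, hS.bdR, mem_symmDiff]
    tauto
  have hle : ∀ y, y ≠ x → (cof R {x, y}).card ≤ 2 := by
    intro y hy
    have hc : ({x, y} : Finset W).card = 2 := card_pair (Ne.symm hy)
    exact (card_le_card (cof_mono hS.sub _)).trans (hD.le2 _ hc)
  have hp0 : ({x, y0} : Finset W) ∈ pe (A1 ++ y0 :: x :: yr :: B) := by
    rw [mem_pe]
    exact ⟨A1, y0, x, yr :: B, rfl, pair_comm _ _⟩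
  have hpr : ({x, yr} : Finset W) ∈ pe (A1 ++ y0 :: x :: yr :: B) := by
    rw [mem_pe]
    exact ⟨A1 ++ [y0], x, yr, B, by simp, rfl⟩
  have hoth : ∀ y, y ≠ x → y ≠ y0 → y ≠ yr →
      (cof R {x, y}).card = 0 ∨ (cof R {x, y}).card = 2 := by
    intro y hy hy0 hyr
    have h3 : ¬ Odd (cof R {x, y}).card := by
      rw [hodd y hy]
      intro hh
      rcases pe_at hnd hh (by simp) with h4 | h4
      · have : y ∈ ({y0, x} : Finset W) := by rw [← h4]; simp
        rw [mem_insert, mem_singleton] at this
        tauto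
      · have : y ∈ ({x, yr} : Finset W) := by rw [← h4]; simp
        rw [mem_insert, mem_singleton] at this
        tauto
    have h4 := hle y hy
    rw [Nat.odd_iff] at h3
    omega
  obtain ⟨mid, hmnd, hmsub, hmall⟩ := h1 W (FAN_L R x) y0 yr (by
      intro e he
      obtain ⟨he1, he2⟩ := FAN_mem.1 he
      have h3 := hD.card3 _ (hS.sub he2)
      rw [card_insert_of_notMem he1] at h3
      omega) h0r (by
      rw [FAN_dg R (Ne.symm hx0)]
      have h3 := (hodd y0 (Ne.symm hx0)).2 hp0
      have h4 := hle y0 (Ne.symm hx0)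
      rw [Nat.odd_iff] at h3
      omega) (by
      rw [FAN_dg R (Ne.symm hxr)]
      have h3 := (hodd yr (Ne.symm hxr)).2 hpr
      have h4 := hle yr (Ne.symm hxr)
      rw [Nat.odd_iff] at h3
      omega) (by
      intro v hv0 hvr
      by_cases hvx : v = x
      · left
        rw [hvx]
        exact FAN_dgx R x
      · rw [FAN_dg R hvx]
        exact hoth v hvx hv0 hvr)
  have hfsub : fan x (pth y0 mid yr) ⊆ cof R {x} := by
    intro t ht
    obtain ⟨e, he, rfl⟩ := mem_image.1 ht
    rw [mem_cof, singleton_subset_iff]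
    exact ⟨(FAN_mem.1 (hmsub he)).2, mem_insert_self _ _⟩
  have hcof : cof R {x} = fan x (pth y0 mid yr) := by
    by_contra hcon
    have hN : (cof R {x} \ fan x (pth y0 mid yr)).Nonempty := by
      rw [sdiff_nonempty]
      intro hh
      exact hcon (Subset.antisymm hh hfsub)
    have hNT : cof R {x} \ fan x (pth y0 mid yr) = cof T {x} := by
      apply hD.star x _ (sdiff_subset.trans (cof_mono hS.sub _)) hN
      intro e hec hxe
      obtain ⟨y, hyx, rfl⟩ : ∃ y, y ≠ x ∧ e = {x, y} := by
        obtain ⟨u, v, huv, rfl⟩ := card_eq_two.1 hec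
        rw [mem_insert, mem_singleton] at hxe
        rcases hxe with rfl | rfl
        · exact ⟨v, Ne.symm huv, rfl⟩
        · exact ⟨u, huv, pair_comm _ _⟩
      by_cases hyF : y ∈ pth y0 mid yr
      · left
        rw [eq_empty_iff_forall_notMem]
        intro t ht
        obtain ⟨ht1, ht2⟩ := mem_cof.1 ht
        obtain ⟨ht3, ht4⟩ := mem_sdiff.1 ht1
        obtain ⟨ht5, ht6⟩ := mem_cof.1 ht3
        have hxt : x ∈ t := singleton_subset_iff.1 ht6
        have hyt : y ∈ t := ht2 (by simp)
        have h3 : t.erase x ∈ FAN_L R x := by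
          rw [FAN_mem, insert_erase hxt]
          exact ⟨notMem_erase _ _, ht5⟩
        have h4 := hmall y hyF _ h3 (mem_erase.2 ⟨hyx, hyt⟩)
        apply ht4
        unfold fan
        rw [mem_image]
        exact ⟨_, h4, insert_erase hxt⟩
      · have hy0 : y ≠ y0 := by
          rintro rfl
          apply hyF
          simp [pth]
        have hyr : y ≠ yr := by
          rintro rfl
          apply hyF
          simp [pth]
        have h3 : cof (cof R {x} \ fan x (pth y0 mid yr)) {x, y} = cof R {x, y} := by
          ext t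
          rw [mem_cof, mem_cof, mem_sdiff, mem_cof]
          constructor
          · rintro ⟨⟨⟨h4, -⟩, -⟩, h5⟩
            exact ⟨h4, h5⟩
          · rintro ⟨h4, h5⟩
            refine ⟨⟨⟨h4, ?_⟩, ?_⟩, h5⟩
            · rw [singleton_subset_iff]
              exact h5 (by simp)
            · intro h6
              obtain ⟨e', he', rfl⟩ := mem_image.1 h6
              have h7 : y ∈ insert x e' := h5 (by simp)
              rw [mem_insert] at h7
              rcases h7 with h7 | h7
              · exact hyx h7
              · exact hyF (mem_of_mem_pe he' h7)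
        rw [h3]
        rcases hoth y hyx hy0 hyr with h4 | h4
        · left
          exact card_eq_zero.1 h4
        · right
          apply eq_of_subset_of_card_le (cof_mono hS.sub _)
          rw [h4]
          exact hD.le2 _ hec
    obtain ⟨e, he, -⟩ := exists_pe_of_mem (a := y0) (cs := mid) (z := yr) (v := y0) (by simp [pth])
    have h5 : insert x e ∈ fan x (pth y0 mid yr) := mem_image_of_mem _ he
    have h6 : insert x e ∈ cof T {x} := cof_mono hS.sub _ (hfsub h5)
    rw [← hNT, mem_sdiff] at h6
    exact h6.2 h5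
  refine ⟨mid, hmnd, hcof, ?_⟩
  intro y hy hyC
  have hyF : y ∈ pth y0 mid yr := by
    unfold pth
    simp [hy]
  obtain ⟨e, he, hye⟩ := exists_pe_of_mem hyF
  obtain ⟨he1, he2⟩ := FAN_mem.1 (hmsub he)
  have hxy : x ≠ y := by
    rintro rfl
    exact he1 hye
  have hed : ({x, y} : Finset W) ∈ edges T := by
    rw [mem_edges]
    refine ⟨card_pair hxy, _, hS.sub he2, ?_⟩
    intro w hw
    rw [mem_insert, mem_singleton] at hw
    rcases hw with rfl | rfl
    · exact mem_insert_self _ _
    · exact mem_insert_of_mem hye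
  have hmnd' : (y0 :: (mid ++ [yr])).Nodup := hmnd
  rcases hch y hyC hed with rfl | rfl
  · simp only [List.nodup_cons, List.mem_append] at hmnd'
    tauto
  · simp only [List.nodup_cons, List.nodup_append, List.mem_singleton] at hmnd'
    exact hmnd'.2.2.2 y hy y rfl rfl

end Pool.Agent.helper57.PP
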